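import Pool.Agent.Lib.MP_99fcc5_gt.Gen.F3

/-! A lower bound for motion planners on a connected sum with one essential summand. -/

set_option linter.unusedSectionVars false

namespace Pool.Agent.FS.OneEss

open Set Topology unitInterval Pool.Agent.Shared.Sing Pool.Agent.Shared.SingEZ
  Pool.Agent.Lib.MP_c77dc5_gt Pool.Agent.Lib.MP_99fcc5_gt Pool.Agent.Lib.MP_99fcc5_gt.Gen

variable {F : Type} [Field F] {X : Type*} [TopologicalSpace X] [Nonempty X]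

/-- The product of a class of high weight with one zero divisor. -/
theorem no_cover_one {n l j : ℕ} (hl : l + (j + 1) = n) {μ : C F X}
    {a b b' : C F X →ₗ[F] F} (hμ : μ ∈ Z F univ ∅ n)
    (ha : Shared.Sing.Coc univ n a) (hb : Shared.Sing.Coc univ l b)
    (hb' : Shared.Sing.Coc univ (j + 1) b') (h1 : a μ ≠ 0) (h2 : b' (cap l b μ) ≠ 0)
    {U U₂ : Set (X × X)} (o : IsOpen U) (o₂ : IsOpen U₂) (hc : U ∪ U₂ = univ)
    (hU : ∀ z ∈ Z F U ∅ (n + l), cup n (a ∘ₗ map Prod.fst) (b ∘ₗ map Prod.snd) z = 0)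
    (s₂ : ∃ s : C(U₂, C(I, X)), ∀ x, s x 0 = x.1.1 ∧ s x 1 = x.1.2) : False := by
  have m1 : μ ∈ Z F univ ∅ (n + 0) := hμ
  have m2 : μ ∈ Z F univ ∅ (l + (j + 1)) := hl ▸ hμ
  have x1 := cap_Z ha m1
  have y1 := cap_Z hb m2
  have a1 := ha.comp_map (continuousOn_fst (β := X) (s := univ)) (mapsTo_univ _ _)
  have b1 := hb.comp_map (continuousOn_snd (α := X) (s := univ)) (mapsTo_univ _ _)
  obtain ⟨c, c1, c2⟩ := cap_shrink' o o₂ (p := n + l) (k := j + 1)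
    (hc ▸ a1.cup b1) hU (c := cross μ μ) (by
      convert cross_Z m1 m2 using 2
      · simpa using hc
      · omega)
  rw [hc, ← cap_cap n l] at c2
  have e1 := cap_fst_B ha m1 m2
  have e2 := cap_snd_B hb x1 m2
  rw [univ_prod_univ] at e1 e2
  rw [zero_add] at e1 e2
  rw [mul_zero, pow_zero, one_smul] at e2
  have e3 := add_mem (cap_B (k := j + 1) b1 e1) e2
  have e4 : cross (cap n a μ) (cap l b μ) - c ∈ B F univ ∅ (j + 1) := by
    have := sub_mem c2 e3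
    rw [map_sub] at this
    convert this using 1
    abel
  have f1 := (zd_coc hb' univ).apply_B e4
  rw [map_sub, zd_sec hb' s₂ c c1, sub_zero, zd_left hb' (cap_In' (k := 1) a hμ.1) y1,
    eps_cap a hμ.1, neg_eq_zero] at f1
  exact mul_ne_zero h1 h2 f1

variable {n : ℕ} {M N B₁ B₂ : Type*} {E₁ E₂ : Type} [TopologicalSpace M] [TopologicalSpace N]
  [TopologicalSpace B₁] [TopologicalSpace B₂] [TopologicalSpace E₁] [TopologicalSpace E₂]
  [Nonempty B₁] [Nonempty B₂] [T2Space M] [T2Space N] [CompactSpace M] [CompactSpace N]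
  [ConnectedSpace M] [ConnectedSpace N] [ChartedSpace (EuclideanSpace ℝ (Fin n)) M]
  [ChartedSpace (EuclideanSpace ℝ (Fin n)) N] [ContractibleSpace E₁] [ContractibleSpace E₂]
  [LocallyPathConnectedSpace B₁] [LocallyPathConnectedSpace B₂] {p₁ : E₁ → B₁} {p₂ : E₂ → B₂}
  {c₁ : M → B₁} {c₂ : N → B₂} {e₁ : EuclideanSpace ℝ (Fin n) → M}
  {e₂ : EuclideanSpace ℝ (Fin n) → N} {f₁ : X → M} {f₂ : X → N}

theorem add_two_le {l : ℕ} (l2 : 2 ≤ l) (ln : l < n)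
    (q₁ : IsCoveringMap p₁) (s₁ : Function.Surjective p₁) (q₂ : IsCoveringMap p₂)
    (s₂ : Function.Surjective p₂)
    (hF : (2 : F) ≠ 0 ∨ CompactSpace B₁ ∧ CompactSpace B₂) (hc₁ : Continuous c₁)
    (hc₂ : Continuous c₂) {z₁ : C F M} {μ₂ z₂ : C F N} (z1 : z₁ ∈ Z F univ ∅ n)
    (z2 : map c₁ z₁ ∉ B F univ ∅ n) (m3 : μ₂ ∈ Z F univ ∅ n) (m4 : μ₂ ∉ B F univ ∅ n)
    (z3 : z₂ ∈ Z F univ ∅ l) (z4 : map c₂ z₂ ∉ B F univ ∅ l)
    (H : Half e₁ e₂ f₁ f₂) (H' : Half e₂ e₁ f₂ f₁) {m : ℕ} {U : Fin m → Set (X × X)}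
    (hU : ∀ i, IsOpen (U i)) (hc : ⋃ i, U i = univ)
    (hσ : ∀ i, ∃ s : C(U i, C(I, X)), ∀ x, s x 0 = x.1.1 ∧ s x 1 = x.1.2) : n + l + 2 ≤ m := by
  by_contra hm
  have hn : 2 ≤ n := by omega
  have := H.t2 H'
  have := H.compact H'
  have hM := locEuc_of n M
  have hN := locEuc_of n N
  have hX := H.locEuc (n := n) H'
  have e := Fintype.card_fin n
  have m2 : z₁ ∉ B F univ ∅ n := fun h => z2 (map_B hc₁.continuousOn (empty_subset _)
    (mapsTo_univ _ _) (mapsTo_empty _ _) h)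
  obtain ⟨ν, n1, n2⟩ := exists_fund_sum' hX H H' (one_lt_rank hn) (e.symm ▸ z1)
    (fund_of_cycle hM (e.symm ▸ z1) (e.symm ▸ m2)) (e.symm ▸ m3)
    (fund_of_cycle hN (e.symm ▸ m3) (e.symm ▸ m4))
  obtain ⟨s, s0, hs⟩ := half_degree hM hX H H' (one_lt_rank hn) (e.symm ▸ z1) (e.symm ▸ m2) n1 n2
  obtain ⟨τ, hτ⟩ := exists_isThom hX n1 n2
  obtain ⟨φ₁, p1, -, p2⟩ := exists_coc z2
  obtain ⟨φ₂, p3, -, p4⟩ := exists_coc z4
  have hl : l + (n - l - 1 + 1) = Fintype.card (Fin n) := by omega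
  have α1 := p1.comp_map hc₁.continuousOn (mapsTo_univ _ univ)
  have β1 := p3.comp_map hc₂.continuousOn (mapsTo_univ _ univ)
  obtain ⟨b', b1, b2, -⟩ := dual_class hN hX H' H hτ hl hl (by omega) β1
    (β := (0 : C F M →ₗ[F] F)) (fun _ _ => rfl) z3
    (by rw [LinearMap.comp_apply, p4]; exact one_ne_zero)
  rw [e] at n1 hs hl
  have a1 := α1.apply_B hs
  rw [map_sub, map_smul, LinearMap.comp_apply _ _ z₁, p2, smul_eq_mul, mul_one, sub_eq_zero] at a1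
  obtain ⟨W, w1, w2, w3⟩ := pad (r := n + l + 1) (by omega) hU hc hσ
  refine no_cover_one hl n1 (α1.comp_map H.cont.continuousOn (mapsTo_univ _ univ))
    (β1.comp_map H'.cont.continuousOn (mapsTo_univ _ univ)) b1
    (by rw [LinearMap.comp_apply _ _ ν, a1]; exact s0) b2
    (isOpen_iUnion fun i : Fin (n + l) => w1 i) (w1 (n + l))
    (eq_univ_of_forall fun q => ?_) (fun w hw => ?_) (w2 _)
  · obtain ⟨i, hi, h5⟩ := w3 q
    by_cases h : i < n + l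
    · exact Or.inl (mem_iUnion.2 ⟨⟨i, h⟩, h5⟩)
    · obtain rfl : i = n + l := by omega
      exact Or.inr h5
  · rw [Fld.comp_map_eq _ _ H.cont continuous_fst, Fld.comp_map_eq _ _ H'.cont continuous_snd]
    exact Fld.weight₂ q₁ s₁ q₂ s₂ hF hc₁ hc₂ H H' hn l2 p1 p3 (fun i => w1 i) (fun i => w2 i) hw

end Pool.Agent.FS.OneEss
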